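import Pool.Agent.N641.VB.Stm

/-!
# FA: existence of the algebra of almost prescribed functions (helper595)
-/

set_option autoImplicit false

namespace Pool.Agent.helper595.VB

open Pool.Agent.N641.VB

variable {ι : Type} {P : ι → Type} [∀ i, BooleanAlgebra (P i)] {B : Type} [BooleanAlgebra B]
  {r : B → Set ι}

theorem r_bot (h1 : ∀ b c, r (b ⊔ c) = r b ∪ r c) (h2 : ∀ b, r bᶜ = (r b)ᶜ) : r ⊥ = ∅ := by
  have a1 : r ⊥ ⊆ r ⊤ := by
    have := h1 ⊥ ⊤
    rw [bot_sup_eq] at this
    rw [this]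
    exact Set.subset_union_left
  have a2 : r ⊥ = (r ⊤)ᶜ := by rw [← h2, compl_top]
  rw [Set.eq_empty_iff_forall_notMem]
  intro i hi
  have hi' := hi
  rw [a2] at hi'
  exact hi' (a1 hi)

theorem r_inf (h1 : ∀ b c, r (b ⊔ c) = r b ∪ r c) (h2 : ∀ b, r bᶜ = (r b)ᶜ) (b c : B) :
    r (b ⊓ c) = r b ∩ r c := by
  have : b ⊓ c = (bᶜ ⊔ cᶜ)ᶜ := by simp
  rw [this, h2, h1, h2, h2]
  simp

theorem r_sdiff (h1 : ∀ b c, r (b ⊔ c) = r b ∪ r c) (h2 : ∀ b, r bᶜ = (r b)ᶜ) (b c : B) :
    r (b \ c) = r b \ r c := by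
  rw [sdiff_eq, r_inf h1 h2, h2, Set.sdiff_eq]

/-- almost prescribed functions -/
def Q (P : ι → Type) [∀ i, BooleanAlgebra (P i)] (r : B → Set ι) (p : B × ∀ i, P i) : Prop :=
  {i | i ∈ r p.1 ∧ p.2 i ≠ ⊤}.Finite ∧ {i | i ∉ r p.1 ∧ p.2 i ≠ ⊥}.Finite

/-- the algebra -/
def alg (P : ι → Type) [∀ i, BooleanAlgebra (P i)] {r : B → Set ι}
    (h1 : ∀ b c, r (b ⊔ c) = r b ∪ r c) (h2 : ∀ b, r bᶜ = (r b)ᶜ) :
    BooleanSubalgebra (B × ∀ i, P i) where
  carrier := {p | Q P r p}
  supClosed' := by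
    rintro ⟨b, x⟩ ⟨hb1, hb2⟩ ⟨c, y⟩ ⟨hc1, hc2⟩
    constructor
    · refine (hb1.union hc1).subset ?_
      rintro i ⟨hi1, hi2⟩
      simp only [Prod.fst_sup, Prod.snd_sup, Pi.sup_apply, h1] at hi1 hi2
      rcases hi1 with hi1 | hi1
      · refine Or.inl ⟨hi1, fun h => hi2 ?_⟩
        simp only at h
        rw [h, top_sup_eq]
      · refine Or.inr ⟨hi1, fun h => hi2 ?_⟩
        simp only at h
        rw [h, sup_top_eq]
    · refine (hb2.union hc2).subset ?_
      rintro i ⟨hi1, hi2⟩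
      simp only [Prod.fst_sup, Prod.snd_sup, Pi.sup_apply, h1, Set.mem_union, not_or] at hi1 hi2
      by_contra hc
      simp only [Set.mem_union, Set.mem_ofPred_eq, not_or, not_and, not_not] at hc
      apply hi2
      rw [hc.1 hi1.1, hc.2 hi1.2, sup_bot_eq]
  infClosed' := by
    rintro ⟨b, x⟩ ⟨hb1, hb2⟩ ⟨c, y⟩ ⟨hc1, hc2⟩
    constructor
    · refine (hb1.union hc1).subset ?_
      rintro i ⟨hi1, hi2⟩
      simp only [Prod.fst_inf, Prod.snd_inf, Pi.inf_apply, r_inf h1 h2] at hi1 hi2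
      by_contra hc
      simp only [Set.mem_union, Set.mem_ofPred_eq, not_or, not_and, not_not] at hc
      apply hi2
      rw [hc.1 hi1.1, hc.2 hi1.2, inf_top_eq]
    · refine (hb2.union hc2).subset ?_
      rintro i ⟨hi1, hi2⟩
      simp only [Prod.fst_inf, Prod.snd_inf, Pi.inf_apply, r_inf h1 h2, Set.mem_inter_iff,
        not_and_or] at hi1 hi2
      rcases hi1 with hi1 | hi1
      · refine Or.inl ⟨hi1, fun h => hi2 ?_⟩
        simp only at h
        rw [h, bot_inf_eq]
      · refine Or.inr ⟨hi1, fun h => hi2 ?_⟩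
        simp only at h
        rw [h, inf_bot_eq]
  compl_mem' := by
    rintro ⟨b, x⟩ ⟨hb1, hb2⟩
    constructor
    · refine hb2.subset ?_
      rintro i ⟨hi1, hi2⟩
      change i ∈ r bᶜ at hi1
      change (x i)ᶜ ≠ ⊤ at hi2
      rw [h2] at hi1
      exact ⟨hi1, fun h => hi2 (by simp only at h; rw [h, compl_bot])⟩
    · refine hb1.subset ?_
      rintro i ⟨hi1, hi2⟩
      change i ∉ r bᶜ at hi1
      change (x i)ᶜ ≠ ⊥ at hi2
      rw [h2, Set.mem_compl_iff, not_not] at hi1
      exact ⟨hi1, fun h => hi2 (by simp only at h; rw [h, compl_top])⟩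
  bot_mem' := by
    constructor
    · convert Set.finite_empty
      rw [Set.eq_empty_iff_forall_notMem]
      rintro i ⟨hi, -⟩
      simp only [Prod.fst_bot, r_bot h1 h2, Set.mem_empty_iff_false] at hi
    · convert Set.finite_empty
      rw [Set.eq_empty_iff_forall_notMem]
      rintro i ⟨-, hi⟩
      simp at hi

theorem FA : S_FA := by
  classical
  intro ι _ P _ _ _ B _ _ r h1 h2 h3
  refine ⟨alg P h1 h2, inferInstance, fun x => x.1.2, fun x => x.1.1, ?_, ?_⟩
  · let f : (Σ _ : B, Σ s : Finset ι, ∀ i : s, P i) → B × ∀ i, P i := fun q =>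
      (q.1, fun i => if h : i ∈ q.2.1 then q.2.2 ⟨i, h⟩ else if i ∈ r q.1 then ⊤ else ⊥)
    have hc : ({p | Q P r p} : Set (B × ∀ i, P i)).Countable := by
      refine (Set.countable_range f).mono ?_
      rintro ⟨b, x⟩ ⟨ha, hb⟩
      refine ⟨⟨b, ha.toFinset ∪ hb.toFinset, fun i => x i⟩, ?_⟩
      simp only [f]
      congr 1
      funext i
      split_ifs with h h'
      · rfl
      · simp only [Finset.mem_union, Set.Finite.mem_toFinset, Set.mem_ofPred_eq, not_or, not_and,
          not_not] at h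
        exact (h.1 h').symm
      · simp only [Finset.mem_union, Set.Finite.mem_toFinset, Set.mem_ofPred_eq, not_or, not_and,
          not_not] at h
        exact (h.2 h').symm
    exact hc.to_subtype
  · constructor
    · rintro ⟨⟨b, x⟩, ha1, ha2⟩ ⟨⟨c, y⟩, hb1, hb2⟩
      constructor
      · intro h
        exact h.2
      · intro h
        refine ⟨?_, h⟩
        show b ≤ c
        rw [← sdiff_eq_bot_iff]
        by_contra hne
        apply h3 _ hne
        refine (ha1.union hb2).subset ?_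
        intro i hi
        rw [r_sdiff h1 h2] at hi
        by_contra hc
        simp only [Set.mem_union, Set.mem_ofPred_eq, not_or, not_and, not_not] at hc
        have e1 := hc.1 hi.1
        have e2 := hc.2 hi.2
        have e3 := h i
        simp only [e1, e2] at e3
        exact top_ne_bot (le_bot_iff.1 e3)
    · rfl
    · intro x y; rfl
    · intro x y; rfl
    · rfl
    · rfl
    · intro x y; rfl
    · intro x y; rfl
    · intro x; exact x.2.1
    · intro x; exact x.2.2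
    · intro b z ha hb
      exact ⟨⟨(b, z), ha, hb⟩, rfl, rfl⟩

end Pool.Agent.helper595.VB
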